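import Pool.Graph.R_pool_sql_team_seeded_3997aac3.Results.MP_1a5b88_nt.ExplicitCases
import Pool.Agent.KS7_53.TM.Comp
import Pool.Agent.KS7_53.TM.Stab

/-!
# Powers of the Thue-Morse product: the law of Q1 holds exactly for `k = 2, 3`

`F(x) = ∏ (1 - x^(2^i))`, `F^m = ∑ t_m(n) x^n`.  Q1 asserts for every `k ≥ 2` that
`ν₂(t_{2^k+1}(2^k n + j))`, `0 ≤ j < 2^k`, is a strictly increasing function of `ν₂(n+1)`.
This is true for `k = 2, 3` (earlier result) and false for every `k ≥ 4`: for every `k ≥ 4` there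
is even an `n` for which the valuation is not the same for all `j < 2^k`.

For `k ≥ 10` one can take `n = 3`: `F² = F(x²)` modulo `2` gives
`t_{2^(k+1)+1}(2n) = t_{2^k+1}(n)` modulo `2^(k+1)`, so that modulo `2^11` the coefficients with the
indices `3·2^k` and `3·2^k + 2^(k-3)` are `t_1025(3072) = 0` and `t_1025(3200) = 1024`.
For `k = 4, …, 9` the coefficients are computed with the recursion
`F^m = (1-x)^m F(x²)^m` on windows of `2^k` coefficients, for
`n = 31, 63, 16383, 63, 3, 3`.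
-/

open PowerSeries KS7_53.TM

namespace Pool.Agent.Results.MP_1a5b88_nt.ExactlyTwoAndThree

/-- `t m n` is the coefficient of `x ^ n` in `∏_{i ≥ 0} (1 - x ^ (2 ^ i)) ^ m`; the factors with
`i > n` have `2 ^ i > n` and do not influence this coefficient. -/
noncomputable def t (m n : ℕ) : ℤ :=
  coeff n ((∏ i ∈ Finset.range (n + 1), (1 - X ^ (2 ^ i) : PowerSeries ℤ)) ^ m)

/-- The assertion of Q1 for `k`: there is a strictly increasing sequence `A` with `A 0 = 0` such
that the exponent of `2` in `t (2 ^ k + 1) (2 ^ k * n + j)` is `A (ν₂ (n + 1))` for all `n` and all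
`j < 2 ^ k`. -/
def HasLaw (k : ℕ) : Prop :=
  ∃ A : ℕ → ℕ, StrictMono A ∧ A 0 = 0 ∧ ∀ n j : ℕ, j < 2 ^ k →
    emultiplicity (2 : ℤ) (t (2 ^ k + 1) (2 ^ k * n + j)) = (A (padicValNat 2 (n + 1)) : ℕ∞)

theorem t_eq (m n : ℕ) : t m n = coeff n (Q264.TMPow.TM ^ m) := (Q264.TMPow.TM_pow m n).symm

theorem ne_of {s : ℕ} {a b : ℤ} (h1 : ¬ (2 : ℤ) ^ s ∣ a) (h2 : (2 : ℤ) ^ s ∣ b) :
    emultiplicity (2 : ℤ) a ≠ emultiplicity (2 : ℤ) b := by
  intro h
  apply h1
  rw [pow_dvd_iff_le_emultiplicity] at h2 ⊢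
  rwa [h]

theorem small {k s K e i₁ i₂ n j₁ j₂ : ℕ} (hKk : K = 2 ^ k) (hK : K % 2 = 0)
    (hc : ent s K e i₁ ≠ 0 ∧ ent s K e i₂ = 0) (h1 : i₁ < K) (h2 : i₂ < K)
    (e1 : 2 ^ k * n + j₁ + i₁ + 1 = 2 ^ e) (e2 : 2 ^ k * n + j₂ + i₂ + 1 = 2 ^ e) :
    emultiplicity (2 : ℤ) (t (2 ^ k + 1) (2 ^ k * n + j₁)) ≠
      emultiplicity (2 : ℤ) (t (2 ^ k + 1) (2 ^ k * n + j₂)) := by
  rw [t_eq, t_eq, ← hKk] at *
  exact ne_of (not_dvd_of_ent hK h1 (by rw [hKk]; exact e1) hc.1)
    (dvd_of_ent hK h2 (by rw [hKk]; exact e2) hc.2)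

theorem large {k : ℕ} (hk : 10 ≤ k) :
    emultiplicity (2 : ℤ) (t (2 ^ k + 1) (2 ^ k * 3 + 2 ^ (k - 3))) ≠
      emultiplicity (2 : ℤ) (t (2 ^ k + 1) (2 ^ k * 3 + 0)) := by
  obtain ⟨d, rfl⟩ := Nat.exists_eq_add_of_le hk
  have h1 := stable d 3200
  have h2 := stable d 3072
  have c1 := not_dvd_of_ent (s := 11) (K := 1024) (e := 12) (i := 895) (n := 3200)
    (by norm_num) (by norm_num) (by norm_num) c10.1
  have c2 := dvd_of_ent (s := 11) (K := 1024) (e := 12) (i := 1023) (n := 3072)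
    (by norm_num) (by norm_num) (by norm_num) c10.2
  have i1 : 2 ^ (10 + d) * 3 + 2 ^ (10 + d - 3) = 2 ^ d * 3200 := by
    rw [show 10 + d - 3 = d + 7 by omega, show 10 + d = d + 10 by ring, pow_add, pow_add]; ring
  have i2 : 2 ^ (10 + d) * 3 + 0 = 2 ^ d * 3072 := by
    rw [show 10 + d = d + 10 by ring, pow_add]; ring
  rw [t_eq, t_eq, i1, i2]
  apply ne_of (s := 11)
  · intro h
    exact c1 ((dvd_sub_right h).1 h1)
  · have := dvd_add h2 c2
    simpa using this

/-- for every `k ≥ 4` the valuation is not even a function of `n` -/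
theorem fails {k : ℕ} (hk : 4 ≤ k) : ∃ n j j' : ℕ, j < 2 ^ k ∧ j' < 2 ^ k ∧
    emultiplicity (2 : ℤ) (t (2 ^ k + 1) (2 ^ k * n + j)) ≠
      emultiplicity (2 : ℤ) (t (2 ^ k + 1) (2 ^ k * n + j')) := by
  rcases Nat.lt_or_ge k 10 with h | h
  · interval_cases k
    · exact ⟨31, 0, 8, by norm_num, by norm_num,
        small (K := 16) (by norm_num) (by norm_num) c4 (by norm_num) (by norm_num)
          (by norm_num) (by norm_num)⟩
    · exact ⟨63, 4, 0, by norm_num, by norm_num,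
        small (K := 32) (by norm_num) (by norm_num) c5 (by norm_num) (by norm_num)
          (by norm_num) (by norm_num)⟩
    · exact ⟨16383, 0, 8, by norm_num, by norm_num,
        small (K := 64) (by norm_num) (by norm_num) c6 (by norm_num) (by norm_num)
          (by norm_num) (by norm_num)⟩
    · exact ⟨63, 0, 16, by norm_num, by norm_num,
        small (K := 128) (by norm_num) (by norm_num) c7 (by norm_num) (by norm_num)
          (by norm_num) (by norm_num)⟩
    · exact ⟨3, 0, 32, by norm_num, by norm_num,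
        small (K := 256) (by norm_num) (by norm_num) c8 (by norm_num) (by norm_num)
          (by norm_num) (by norm_num)⟩
    · exact ⟨3, 64, 0, by norm_num, by norm_num,
        small (K := 512) (by norm_num) (by norm_num) c9 (by norm_num) (by norm_num)
          (by norm_num) (by norm_num)⟩
  · exact ⟨3, 2 ^ (k - 3), 0, Nat.pow_lt_pow_right (by norm_num) (by omega), by positivity, large h⟩

/-- **Complete answer to Q1.** For `k ≥ 2` the assertion holds exactly for `k = 2` and `k = 3`; and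
for every `k ≥ 4` there are an `n` and `j, j' < 2 ^ k` such that the exponents of `2` in
`t_{2^k+1}(2^k n + j)` and `t_{2^k+1}(2^k n + j')` are different, so that the valuation is not a
function of `n` at all. -/
theorem result :
    (∀ k : ℕ, 2 ≤ k → (HasLaw k ↔ k = 2 ∨ k = 3)) ∧
    (∀ k : ℕ, 4 ≤ k → ∃ n j j' : ℕ, j < 2 ^ k ∧ j' < 2 ^ k ∧
      emultiplicity (2 : ℤ) (t (2 ^ k + 1) (2 ^ k * n + j)) ≠
        emultiplicity (2 : ℤ) (t (2 ^ k + 1) (2 ^ k * n + j'))) := by
  refine ⟨fun k hk => ⟨fun h => ?_, fun h => ?_⟩, fun k hk => fails hk⟩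
  · by_contra hcon
    obtain ⟨A, -, -, hA⟩ := h
    obtain ⟨n, j, j', hj, hj', hne⟩ := fails (k := k) (by omega)
    exact hne ((hA n j hj).trans (hA n j' hj').symm)
  · have hres := Pool.Agent.Results.MP_1a5b88_nt.ExplicitCases.result
    rcases h with rfl | rfl
    · refine ⟨fun v => 4 * ((v + 1) / 2) - v % 2, strictMono_nat_of_lt_succ fun v => ?_, by norm_num,
        fun n j hj => ?_⟩
      · show 4 * ((v + 1) / 2) - v % 2 < 4 * ((v + 1 + 1) / 2) - (v + 1) % 2
        omega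
      · exact hres.1 n j (by simpa using hj)
    · refine ⟨fun v => 5 * ((v + 1) / 2) - 2 * (v % 2), strictMono_nat_of_lt_succ fun v => ?_,
        by norm_num, fun n j hj => ?_⟩
      · show 5 * ((v + 1) / 2) - 2 * (v % 2) < 5 * ((v + 1 + 1) / 2) - 2 * ((v + 1) % 2)
        omega
      · exact hres.2 n j (by simpa using hj)

end Pool.Agent.Results.MP_1a5b88_nt.ExactlyTwoAndThree
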